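import Pool.Agent.P.MP_0e199b_al.Defs

namespace Pool.Agent.P.MP_0e199b_al

open Matrix

set_option maxHeartbeats 400000

theorem mem_spec_iff {ι : Type} [Fintype ι] [DecidableEq ι] (A : Matrix ι ι ℂ) (z : ℂ) :
    z ∈ spectrum ℂ A ↔ (z • (1 : Matrix ι ι ℂ) - A).det = 0 := by
  rw [spectrum.mem_iff, Matrix.isUnit_iff_isUnit_det, isUnit_iff_ne_zero, not_not,
    Algebra.algebraMap_eq_smul_one]

theorem lmin_eq {ι : Type} [Fintype ι] [DecidableEq ι] (A : Matrix ι ι ℂ) (x : ℝ)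
    (hx : (x : ℂ) ∈ spectrum ℂ A) (hmin : ∀ y : ℝ, (y : ℂ) ∈ spectrum ℂ A → x ≤ y) :
    lmin A = (x : EReal) := by
  unfold lmin
  apply le_antisymm
  · exact sInf_le ⟨x, rfl, hx⟩
  · apply le_sInf
    rintro _ ⟨y, rfl, hy⟩
    exact_mod_cast hmin y hy

theorem lmin_le {ι : Type} [Fintype ι] [DecidableEq ι] (A : Matrix ι ι ℂ) (x : ℝ)
    (hx : (x : ℂ) ∈ spectrum ℂ A) : lmin A ≤ (x : EReal) :=
  sInf_le ⟨x, rfl, hx⟩

theorem lmin_spec {ι : Type} [Fintype ι] [DecidableEq ι] (A : Matrix ι ι ℂ) (h : lmin A < ⊤) :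
    ∃ x : ℝ, lmin A = (x : EReal) ∧ (x : ℂ) ∈ spectrum ℂ A ∧
      ∀ y : ℝ, (y : ℂ) ∈ spectrum ℂ A → x ≤ y := by
  have hfin : {y : EReal | ∃ x : ℝ, y = (x : EReal) ∧ (x : ℂ) ∈ spectrum ℂ A}.Finite := by
    have h1 : (spectrum ℂ A).Finite := Matrix.finite_spectrum A
    refine (h1.image (fun z : ℂ => ((z.re : ℝ) : EReal))).subset ?_
    rintro _ ⟨x, rfl, hx⟩
    exact ⟨x, hx, by simp⟩
  have hne : {y : EReal | ∃ x : ℝ, y = (x : EReal) ∧ (x : ℂ) ∈ spectrum ℂ A}.Nonempty := by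
    by_contra hc
    rw [Set.not_nonempty_iff_eq_empty] at hc
    unfold lmin at h
    rw [hc] at h
    simp at h
  obtain ⟨x, hx1, hx2⟩ := hne.csInf_mem hfin
  refine ⟨x, hx1, hx2, fun y hy => ?_⟩
  have := lmin_le A y hy
  unfold lmin at this
  rw [hx1] at this
  exact_mod_cast this

/-- padded matrix -/
def pad {n : ℕ} (M : Matrix (Fin n) (Fin n) ℂ) (α : Finset (Fin n)) : Matrix (Fin n) (Fin n) ℂ :=
  Matrix.of fun i j => if i ∈ α ∧ j ∈ α then M i j else if i = j then 1 else 0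

theorem det_inst {ι : Type} (i1 i2 : Fintype ι) (d1 d2 : DecidableEq ι) (X : Matrix ι ι ℂ) :
    @Matrix.det ι d1 i1 ℂ _ X = @Matrix.det ι d2 i2 ℂ _ X := by
  cases Subsingleton.elim i1 i2
  cases Subsingleton.elim d1 d2
  rfl

theorem det_princ {n : ℕ} (M : Matrix (Fin n) (Fin n) ℂ) (α : Finset (Fin n)) :
    (princ M α).det = (pad M α).det := by
  rw [Matrix.twoBlockTriangular_det (pad M α) (fun i => i ∈ α)]
  · have h1 : toSquareBlockProp (pad M α) (fun i => i ∈ α) = princ M α := by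
      ext i j
      simp [toSquareBlockProp, toBlock, pad, princ, i.2, j.2]
    have h2 : toSquareBlockProp (pad M α) (fun i => ¬ i ∈ α) = 1 := by
      ext i j
      have := i.2
      simp [toSquareBlockProp, toBlock, pad, this, Matrix.one_apply, Subtype.ext_iff]
    rw [h1, h2, Matrix.det_one, mul_one]
    exact det_inst _ _ _ _ _
  · intro i hi j hj
    have : i ≠ j := fun h => hi (h ▸ hj)
    simp [pad, hi, this]

theorem mem_spec_princ {n : ℕ} (A : Matrix (Fin n) (Fin n) ℂ) (α : Finset (Fin n)) (z : ℂ) :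
    z ∈ spectrum ℂ (princ A α) ↔ (pad (z • (1 : Matrix (Fin n) (Fin n) ℂ) - A) α).det = 0 := by
  rw [mem_spec_iff, ← det_princ]
  have : z • (1 : Matrix α α ℂ) - princ A α = princ (z • (1 : Matrix (Fin n) (Fin n) ℂ) - A) α := by
    ext i j
    by_cases h : i = j
    · subst h
      simp [princ]
    · have h' : (i : Fin n) ≠ j := fun e => h (Subtype.ext e)
      simp [princ, h, h']
  rw [this]

theorem spec_princ_univ {n : ℕ} (A : Matrix (Fin n) (Fin n) ℂ) :
    spectrum ℂ (princ A Finset.univ) = spectrum ℂ A := by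
  ext z
  rw [mem_spec_princ, mem_spec_iff]
  have : pad (z • (1 : Matrix (Fin n) (Fin n) ℂ) - A) Finset.univ
      = z • (1 : Matrix (Fin n) (Fin n) ℂ) - A := by
    ext i j
    simp [pad]
  rw [this]

theorem lmin_princ_univ {n : ℕ} (A : Matrix (Fin n) (Fin n) ℂ) :
    lmin (princ A Finset.univ) = lmin A := by
  unfold lmin
  rw [spec_princ_univ]

end Pool.Agent.P.MP_0e199b_al
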