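import Pool.Agent.P.MP_0e199b_al.Small

namespace Pool.Agent.P.MP_0e199b_al

open Matrix

set_option maxHeartbeats 800000

theorem det4 (M : Matrix (Fin 4) (Fin 4) ℂ) :
    M.det =
      M 0 0 * (M 1 1 * M 2 2 * M 3 3 - M 1 1 * M 2 3 * M 3 2 - M 1 2 * M 2 1 * M 3 3
        + M 1 2 * M 2 3 * M 3 1 + M 1 3 * M 2 1 * M 3 2 - M 1 3 * M 2 2 * M 3 1)
      - M 0 1 * (M 1 0 * M 2 2 * M 3 3 - M 1 0 * M 2 3 * M 3 2 - M 1 2 * M 2 0 * M 3 3
        + M 1 2 * M 2 3 * M 3 0 + M 1 3 * M 2 0 * M 3 2 - M 1 3 * M 2 2 * M 3 0)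
      + M 0 2 * (M 1 0 * M 2 1 * M 3 3 - M 1 0 * M 2 3 * M 3 1 - M 1 1 * M 2 0 * M 3 3
        + M 1 1 * M 2 3 * M 3 0 + M 1 3 * M 2 0 * M 3 1 - M 1 3 * M 2 1 * M 3 0)
      - M 0 3 * (M 1 0 * M 2 1 * M 3 2 - M 1 0 * M 2 2 * M 3 1 - M 1 1 * M 2 0 * M 3 2
        + M 1 1 * M 2 2 * M 3 0 + M 1 2 * M 2 0 * M 3 1 - M 1 2 * M 2 1 * M 3 0) := by
  rw [Matrix.det_succ_row_zero]
  simp [Fin.sum_univ_succ, Matrix.det_fin_three, Fin.succAbove]
  ring

/-- The counterexample of order four. -/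
def cex : Matrix (Fin 4) (Fin 4) ℂ := !![5, 5, 5, 5; 0, 9, 9, 9; 0, 0, 10, 10; 68, 68, 68, 68]

/-- least real eigenvalue of its principal submatrices -/
def cexL (α : Finset (Fin 4)) : ℕ :=
  if 0 ∈ α then (if 3 ∈ α then 0 else 5)
  else if 1 ∈ α then (if 3 ∈ α then 0 else 9)
  else if 2 ∈ α then (if 3 ∈ α then 0 else 10)
  else 68

theorem cexL_mono : ∀ α β : Finset (Fin 4), β.Nonempty → β ⊆ α → cexL α ≤ cexL β := by
  decide

/-- real characteristic polynomial of the principal submatrices -/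
def cexP (α : Finset (Fin 4)) (y : ℝ) : ℝ :=
  let a : ℝ := if 0 ∈ α then y - 5 else 1
  let b : ℝ := if 1 ∈ α then y - 9 else 1
  let c : ℝ := if 2 ∈ α then y - 10 else 1
  let a' : ℝ := if 0 ∈ α then y else 1
  let b' : ℝ := if 1 ∈ α then y else 1
  let c' : ℝ := if 2 ∈ α then y else 1
  if 3 ∈ α then y * a * b * c - 68 * a' * b' * c' else a * b * c

theorem cex_mem (α : Finset (Fin 4)) (y : ℝ) :
    (y : ℂ) ∈ spectrum ℂ (princ cex α) ↔ cexP α y = 0 := by
  rw [mem_spec_princ, ← Complex.ofReal_eq_zero]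
  have : (pad ((y : ℂ) • (1 : Matrix (Fin 4) (Fin 4) ℂ) - cex) α).det = ((cexP α y : ℝ) : ℂ) := by
    rw [det4]
    by_cases h0 : (0 : Fin 4) ∈ α <;> by_cases h1 : (1 : Fin 4) ∈ α <;>
      by_cases h2 : (2 : Fin 4) ∈ α <;> by_cases h3 : (3 : Fin 4) ∈ α <;>
      simp [pad, cex, cexP, h0, h1, h2, h3] <;> ring
  rw [this]

theorem cex_lmin (α : Finset (Fin 4)) (hα : α.Nonempty) :
    lmin (princ cex α) = (((cexL α : ℕ) : ℝ) : EReal) := by
  have hne : (0 : Fin 4) ∈ α ∨ (1 : Fin 4) ∈ α ∨ (2 : Fin 4) ∈ α ∨ (3 : Fin 4) ∈ α := by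
    obtain ⟨i, hi⟩ := hα
    fin_cases i <;> simp_all
  apply lmin_eq
  · rw [cex_mem]
    by_cases h0 : (0 : Fin 4) ∈ α <;> by_cases h1 : (1 : Fin 4) ∈ α <;>
      by_cases h2 : (2 : Fin 4) ∈ α <;> by_cases h3 : (3 : Fin 4) ∈ α <;>
      simp_all [cexP, cexL]
  · intro y hy
    rw [cex_mem] at hy
    by_contra hlt
    rw [not_le] at hlt
    revert hy hlt
    by_cases h0 : (0 : Fin 4) ∈ α <;> by_cases h1 : (1 : Fin 4) ∈ α <;>
      by_cases h2 : (2 : Fin 4) ∈ α <;> by_cases h3 : (3 : Fin 4) ∈ α <;>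
      simp only [cexP, cexL, h0, h1, h2, h3, if_true, if_false] <;> push_cast <;> intro hy hlt
    · have ht : 0 < -y := by linarith
      have := mul_pos ht ht
      have := mul_pos this ht
      have := mul_pos this ht
      nlinarith
    · have h5 : y - 5 < 0 := by linarith
      have h9 : y - 9 < 0 := by linarith
      have h10 : y - 10 < 0 := by linarith
      exact absurd hy (mul_ne_zero (mul_ne_zero h5.ne h9.ne) h10.ne)
    · have ht : 0 < -y := by linarith
      have := mul_pos ht ht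
      have := mul_pos this ht
      nlinarith
    · nlinarith
    · have ht : 0 < -y := by linarith
      have := mul_pos ht ht
      have := mul_pos this ht
      nlinarith
    · nlinarith
    · nlinarith
    · linarith
    · have ht : 0 < -y := by linarith
      have := mul_pos ht ht
      have := mul_pos this ht
      nlinarith
    · nlinarith
    · nlinarith
    · linarith
    · nlinarith
    · linarith
    · linarith
    · simp_all

theorem cex_lmin_top : lmin cex = ((0 : ℝ) : EReal) := by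
  rw [← lmin_princ_univ, cex_lmin _ Finset.univ_nonempty]
  simp [cexL]

theorem cex_isTau : IsTau cex := by
  refine ⟨fun α β hβ hsub => ?_, by rw [cex_lmin_top]; simp⟩
  rw [cex_lmin β hβ, cex_lmin α (hβ.mono hsub)]
  refine ⟨?_, EReal.coe_lt_top _⟩
  exact_mod_cast cexL_mono α β hβ hsub

theorem cex_not_ineqV : ¬ IneqV cex := by
  intro h
  have hz : (1 + 2 * Complex.I) ∈ spectrum ℂ cex := by
    rw [mem_spec_iff, det4]
    simp [cex]
    have hI : Complex.I ^ 2 = -1 := Complex.I_sq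
    linear_combination (16 * Complex.I ^ 2 - 704 * Complex.I - 356) * hI
  have h1 := h _ hz
  rw [cex_lmin_top, EReal.toReal_coe] at h1
  have h2 := h1 (by
    intro e
    have := congrArg Complex.re e
    simp at this)
  have hpi : Real.pi / 2 - Real.pi / ((4 : ℕ) : ℝ) = Real.pi / 4 := by push_cast; ring
  rw [hpi] at h2
  simp only [Complex.ofReal_zero, sub_zero] at h2
  have ht : Real.tan (Complex.arg (1 + 2 * Complex.I)) = 2 := by
    rw [Complex.tan_arg]; simp
  have hle := (abs_le.1 h2).2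
  have hge := (abs_le.1 h2).1
  have hm : Real.tan (Complex.arg (1 + 2 * Complex.I)) ≤ Real.tan (Real.pi / 4) := by
    apply Real.strictMonoOn_tan.monotoneOn _ _ hle
    · constructor <;> linarith [Real.pi_pos]
    · constructor <;> linarith [Real.pi_pos]
  rw [ht, Real.tan_pi_div_four] at hm
  norm_num at hm

theorem main :
    IsGreatest {N : ℕ | ∀ n : ℕ, 1 ≤ n → n ≤ N →
      ∀ A : Matrix (Fin n) (Fin n) ℂ, IsTau A → IneqV A} 3 := by
  constructor
  · intro n h1 h3 A hA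
    interval_cases n
    · exact ineqV_one A hA
    · exact ineqV_two A hA
    · exact ineqV_three A hA
  · intro N hN
    by_contra hlt
    exact cex_not_ineqV (hN 4 (by norm_num) (by omega) cex cex_isTau)

end Pool.Agent.P.MP_0e199b_al
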