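import Mathlib

namespace Pool.Agent.P.MP_0e199b_al

/-- The principal submatrix with rows and columns indexed by `α`. -/
def princ {n : ℕ} (A : Matrix (Fin n) (Fin n) ℂ) (α : Finset (Fin n)) : Matrix α α ℂ :=
  A.submatrix Subtype.val Subtype.val

/-- The least real eigenvalue, `⊤` if there is none. -/
noncomputable def lmin {ι : Type} [Fintype ι] [DecidableEq ι] (A : Matrix ι ι ℂ) : EReal :=
  sInf {y : EReal | ∃ x : ℝ, y = (x : EReal) ∧ (x : ℂ) ∈ spectrum ℂ A}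

/-- Eigenvalue monotonicity. -/
def IsOmega {n : ℕ} (A : Matrix (Fin n) (Fin n) ℂ) : Prop :=
  ∀ α β : Finset (Fin n), β.Nonempty → β ⊆ α →
    lmin (princ A α) ≤ lmin (princ A β) ∧ lmin (princ A β) < ⊤

/-- Tau-matrices. -/
def IsTau {n : ℕ} (A : Matrix (Fin n) (Fin n) ℂ) : Prop :=
  IsOmega A ∧ 0 ≤ lmin A

/-- Inequality (V). -/
def IneqV {n : ℕ} (A : Matrix (Fin n) (Fin n) ℂ) : Prop :=
  ∀ z ∈ spectrum ℂ A, z ≠ ((lmin A).toReal : ℂ) →
    |Complex.arg (z - ((lmin A).toReal : ℂ))| ≤ Real.pi / 2 - Real.pi / (n : ℝ)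

end Pool.Agent.P.MP_0e199b_al
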