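import Pool.Agent.P.MP_0e199b_al.Basic

namespace Pool.Agent.P.MP_0e199b_al

open Matrix

set_option maxHeartbeats 400000

theorem mem_spec_single {n : ℕ} (A : Matrix (Fin n) (Fin n) ℂ) (i : Fin n) (z : ℂ) :
    z ∈ spectrum ℂ (princ A {i}) ↔ z = A i i := by
  rw [mem_spec_iff]
  have hd : ∀ X : Matrix ({i} : Finset (Fin n)) ({i} : Finset (Fin n)) ℂ,
      X.det = X ⟨i, by simp⟩ ⟨i, by simp⟩ := by
    intro X
    have : Subsingleton ({i} : Finset (Fin n)) :=
      ⟨fun a b => Subtype.ext (by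
        have ha := Finset.mem_singleton.1 a.2
        have hb := Finset.mem_singleton.1 b.2
        rw [ha, hb])⟩
    exact Matrix.det_eq_elem_of_subsingleton X _
  rw [hd]
  simp [princ, sub_eq_zero]

theorem diag_real {n : ℕ} {A : Matrix (Fin n) (Fin n) ℂ} (h : IsOmega A) (i : Fin n) :
    ∃ a : ℝ, A i i = (a : ℂ) ∧ lmin (princ A {i}) = (a : EReal) := by
  obtain ⟨x, hx1, hx2, -⟩ := lmin_spec _ (h {i} {i} (by simp) subset_rfl).2
  exact ⟨x, ((mem_spec_single A i _).1 hx2).symm, hx1⟩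

theorem top_real {n : ℕ} {A : Matrix (Fin n) (Fin n) ℂ} (h : IsOmega A) (hn : 1 ≤ n) :
    ∃ x : ℝ, lmin A = (x : EReal) ∧ (x : ℂ) ∈ spectrum ℂ A ∧
      ∀ y : ℝ, (y : ℂ) ∈ spectrum ℂ A → x ≤ y := by
  apply lmin_spec
  rw [← lmin_princ_univ]
  exact (h Finset.univ Finset.univ ⟨⟨0, hn⟩, Finset.mem_univ _⟩ subset_rfl).2

theorem arg_real_case {n : ℕ} {A : Matrix (Fin n) (Fin n) ℂ} {x : ℝ}
    (hmin : ∀ y : ℝ, (y : ℂ) ∈ spectrum ℂ A → x ≤ y) {z : ℂ} (hz : z ∈ spectrum ℂ A)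
    (him : z.im = 0) : Complex.arg (z - (x : ℂ)) = 0 := by
  have hzr : ((z.re : ℝ) : ℂ) = z := by
    apply Complex.ext <;> simp [him]
  have h1 := hmin z.re (by rw [hzr]; exact hz)
  rw [Complex.arg_eq_zero_iff]
  constructor
  · simp; exact h1
  · simp [him]

theorem ineqV_one (A : Matrix (Fin 1) (Fin 1) ℂ) (h : IsTau A) : IneqV A := by
  obtain ⟨x, hx1, hx2, -⟩ := top_real h.1 le_rfl
  intro z hz hne
  exfalso
  apply hne
  rw [hx1, EReal.toReal_coe]
  rw [mem_spec_iff] at hz hx2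
  simp [Matrix.det_unique, sub_eq_zero] at hz hx2
  rw [hz, hx2]

theorem ineqV_two (A : Matrix (Fin 2) (Fin 2) ℂ) (h : IsTau A) : IneqV A := by
  obtain ⟨x, hx1, hx2, hx3⟩ := top_real h.1 (by norm_num)
  obtain ⟨a, ha, -⟩ := diag_real h.1 0
  obtain ⟨b, hb, -⟩ := diag_real h.1 1
  intro z hz hne
  rw [hx1, EReal.toReal_coe] at hne ⊢
  have him : z.im = 0 := by
    have hz' := hz
    rw [mem_spec_iff] at hz' hx2
    simp [Matrix.det_fin_two, ha, hb] at hz' hx2
    have h3 : (z - x) * (z + x - a - b) = 0 := by linear_combination hz' - hx2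
    rcases mul_eq_zero.1 h3 with h4 | h4
    · exact absurd (sub_eq_zero.1 h4) hne
    · have := congrArg Complex.im h4
      simpa using this
  rw [arg_real_case hx3 hz him]
  simp

theorem abs_arg_le (w : ℂ) (h1 : 0 ≤ w.re) (h2 : 3 * w.im ^ 2 ≤ w.re ^ 2) :
    |Complex.arg w| ≤ Real.pi / 6 := by
  rw [Complex.arg_of_re_nonneg h1]
  have hb : |w.im / ‖w‖| ≤ 1 / 2 := by
    by_cases hw : w = 0
    · simp [hw]
    have hpos : 0 < ‖w‖ := norm_pos_iff.2 hw
    rw [abs_div, abs_of_pos hpos, div_le_iff₀ hpos]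
    have hsq : ‖w‖ ^ 2 = w.re ^ 2 + w.im ^ 2 := by
      rw [Complex.sq_norm, Complex.normSq_apply]; ring
    apply abs_le_of_sq_le_sq' _ (by positivity) |>.2.trans' (le_refl _) |> fun h => h
    rw [sq_abs]
    nlinarith
  have hs : Real.arcsin (1 / 2) = Real.pi / 6 := by
    rw [← Real.sin_pi_div_six, Real.arcsin_sin] <;> linarith [Real.pi_pos]
  rw [abs_le] at hb ⊢
  constructor
  · rw [← hs, ← Real.arcsin_neg]
    exact Real.monotone_arcsin hb.1
  · rw [← hs]
    exact Real.monotone_arcsin hb.2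

theorem pair_nonneg {A : Matrix (Fin 3) (Fin 3) ℂ} (h : IsOmega A) (i j : Fin 3) (hij : i ≠ j) :
    ∃ c : ℝ, 0 ≤ c ∧ A i j * A j i = (c : ℂ) := by
  obtain ⟨a, ha, ha'⟩ := diag_real h i
  obtain ⟨b, hb, hb'⟩ := diag_real h j
  obtain ⟨x, hx1, hx2, -⟩ := lmin_spec _ (h {i, j} {i, j} (by simp) subset_rfl).2
  have h1 := (h {i, j} {i} (by simp) (by simp)).1
  have h2 := (h {i, j} {j} (by simp) (by simp)).1
  rw [hx1, ha'] at h1
  rw [hx1, hb'] at h2
  have h1' : x ≤ a := by exact_mod_cast h1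
  have h2' : x ≤ b := by exact_mod_cast h2
  refine ⟨(a - x) * (b - x), mul_nonneg (by linarith) (by linarith), ?_⟩
  rw [mem_spec_princ] at hx2
  push_cast
  rw [← ha, ← hb]
  fin_cases i <;> fin_cases j <;> simp at hij <;>
    simp [pad, Matrix.det_fin_three] at hx2 ⊢ <;> linear_combination -hx2

theorem ineqV_three (A : Matrix (Fin 3) (Fin 3) ℂ) (h : IsTau A) : IneqV A := by
  obtain ⟨x, hx1, hx2, hx3⟩ := top_real h.1 (by norm_num)
  obtain ⟨a, ha, ha'⟩ := diag_real h.1 0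
  obtain ⟨b, hb, hb'⟩ := diag_real h.1 1
  obtain ⟨c, hc, hc'⟩ := diag_real h.1 2
  have hxa : x ≤ a := by
    have := (h.1 Finset.univ {0} (by simp) (by simp)).1
    rw [lmin_princ_univ, hx1, ha'] at this
    exact_mod_cast this
  have hxb : x ≤ b := by
    have := (h.1 Finset.univ {1} (by simp) (by simp)).1
    rw [lmin_princ_univ, hx1, hb'] at this
    exact_mod_cast this
  have hxc : x ≤ c := by
    have := (h.1 Finset.univ {2} (by simp) (by simp)).1
    rw [lmin_princ_univ, hx1, hc'] at this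
    exact_mod_cast this
  obtain ⟨p, hp, hp'⟩ := pair_nonneg h.1 0 1 (by decide)
  obtain ⟨q, hq, hq'⟩ := pair_nonneg h.1 0 2 (by decide)
  obtain ⟨r, hr, hr'⟩ := pair_nonneg h.1 1 2 (by decide)
  intro z hz hne
  rw [hx1, EReal.toReal_coe] at hne ⊢
  have hpi : Real.pi / 2 - Real.pi / ((3 : ℕ) : ℝ) = Real.pi / 6 := by push_cast; ring
  rw [hpi]
  by_cases him : z.im = 0
  · rw [arg_real_case hx3 hz him]
    simp; positivity
  have hz' := hz
  rw [mem_spec_iff] at hz' hx2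
  simp [Matrix.det_fin_three, ha, hb, hc] at hz' hx2
  have h3 : (z - x) * ((z - x) ^ 2 - ((a - x) + (b - x) + (c - x)) * (z - x)
      + ((a - x) * (b - x) + (a - x) * (c - x) + (b - x) * (c - x) - p - q - r)) = 0 := by
    linear_combination hz' - hx2 + (z - x) * hp' + (z - x) * hq' + (z - x) * hr'
  rcases mul_eq_zero.1 h3 with h4 | h4
  · exact absurd (sub_eq_zero.1 h4) hne
  have hre := congrArg Complex.re h4
  have him' := congrArg Complex.im h4
  simp [pow_two] at hre him'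
  have h5 : 2 * (z.re - x) = (a - x) + (b - x) + (c - x) := by
    have : z.im * (2 * (z.re - x) - ((a - x) + (b - x) + (c - x))) = 0 := by linarith
    rcases mul_eq_zero.1 this with h6 | h6
    · exact absurd h6 him
    · linarith
  apply abs_arg_le
  · simp; linarith
  · simp
    nlinarith [sq_nonneg (a - b), sq_nonneg (a - c), sq_nonneg (b - c)]

end Pool.Agent.P.MP_0e199b_al
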