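import Pool.Agent.P.MP_0e199b_al.Counter

/-! Tau-matrices of order at most four have no eigenvalue to the left of the least real one. -/

namespace Pool.Agent.P.MP_0e199b_al

open Matrix

theorem mem_sub {m n : ℕ} (A : Matrix (Fin n) (Fin n) ℂ) (e : Fin m → Fin n)
    (he : Function.Injective e) (α : Finset (Fin n)) (hα : ∀ i, i ∈ α ↔ ∃ k, e k = i) (z : ℂ) :
    z ∈ spectrum ℂ (princ A α) ↔
      (z • (1 : Matrix (Fin m) (Fin m) ℂ) - A.submatrix e e).det = 0 := by
  let f : Fin m ≃ α := Equiv.ofBijective (fun k => ⟨e k, (hα _).2 ⟨k, rfl⟩⟩)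
    ⟨fun _ _ h => he (congrArg Subtype.val h), fun i =>
      let ⟨k, hk⟩ := (hα i).1 i.2; ⟨k, Subtype.ext hk⟩⟩
  rw [mem_spec_iff, ← det_submatrix_equiv_self f]
  have : (z • (1 : Matrix α α ℂ) - princ A α).submatrix f f =
      z • (1 : Matrix (Fin m) (Fin m) ℂ) - A.submatrix e e := by
    ext i j
    simp only [submatrix_apply, Matrix.sub_apply, Matrix.smul_apply, one_apply, f.injective.eq_iff]
    rfl
  rw [this]

/-- the least real eigenvalues as real numbers -/
structure Lv {n : ℕ} (A : Matrix (Fin n) (Fin n) ℂ) (L : Finset (Fin n) → ℝ) : Prop where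
  mono : ∀ α β, β.Nonempty → β ⊆ α → L α ≤ L β
  mem : ∀ α, α.Nonempty → (L α : ℂ) ∈ spectrum ℂ (princ A α)
  eq : ∀ α, α.Nonempty → lmin (princ A α) = L α

theorem exists_Lv {n : ℕ} {A : Matrix (Fin n) (Fin n) ℂ} (h : IsOmega A) : ∃ L, Lv A L := by
  have k : ∀ α : Finset (Fin n), α.Nonempty → ∃ x : ℝ, lmin (princ A α) = x ∧
      (x : ℂ) ∈ spectrum ℂ (princ A α) := fun α hα =>
    let ⟨x, h1, h2, _⟩ := lmin_spec _ (h α α hα subset_rfl).2
    ⟨x, h1, h2⟩
  choose! L h1 h2 using k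
  refine ⟨L, fun α β a b => ?_, h2, h1⟩
  have := (h α β a b).1
  rwa [h1 α (a.mono b), h1 β a, EReal.coe_le_coe_iff] at this

namespace Lv

variable {n : ℕ} {A : Matrix (Fin n) (Fin n) ℂ} {L : Finset (Fin n) → ℝ} (h : Lv A L)
  {i j k : Fin n}
include h

theorem one (i : Fin n) : A i i = L {i} := ((mem_spec_single A i _).1 (h.mem _ (by simp))).symm

theorem two (hij : i ≠ j) : ∃ p : ℝ, A i j * A j i = p ∧ 0 ≤ p ∧
    ∀ α, i ∈ α → j ∈ α → p ≤ (L {i} - L α) * (L {j} - L α) := by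
  have h1 := (mem_sub A ![i, j] (by simpa [Function.Injective, Fin.forall_fin_two, hij]
    using hij.symm) {i, j} (by simp [Fin.exists_fin_two, eq_comm]) _).1 (h.mem {i, j} (by simp))
  have h2 := h.mono {i, j} {i} (by simp) (by simp)
  have h3 := h.mono {i, j} {j} (by simp) (by simp)
  refine ⟨(L {i} - L {i, j}) * (L {j} - L {i, j}), ?_, mul_nonneg (by linarith) (by linarith),
    fun α a b => ?_⟩
  · simp [det_fin_two, h.one] at h1
    push_cast
    linear_combination -h1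
  · have h4 := h.mono α {i, j} (by simp) (by simp [Finset.insert_subset_iff, a, b])
    exact mul_le_mul (by linarith) (by linarith) (by linarith) (by linarith)

theorem three (hij : i ≠ j) (hik : i ≠ k) (hjk : j ≠ k) {p q : ℝ} (hp : A i j * A j i = p)
    (hq : A i k * A k i = q) : ∃ T : ℝ, A i j * A j k * A k i + A i k * A k j * A j i = T ∧
      T ≤ p * (L {k} - L Finset.univ) + q * (L {j} - L Finset.univ) := by
  have h1 := (mem_sub A ![i, j, k] (by
    simp [Function.Injective, Fin.forall_fin_succ, hij, hik, hjk, hij.symm, hik.symm, hjk.symm])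
    {i, j, k} (by simp [Fin.exists_fin_succ, eq_comm]) _).1 (h.mem {i, j, k} (by simp))
  obtain ⟨p', a1, a2, -⟩ := h.two hij
  obtain ⟨q', b1, b2, -⟩ := h.two hik
  obtain ⟨r, c1, -, c2⟩ := h.two hjk
  obtain rfl : p = p' := by exact_mod_cast hp.symm.trans a1
  obtain rfl : q = q' := by exact_mod_cast hq.symm.trans b1
  have h2 := h.mono {i, j, k} {i} (by simp) (by simp)
  have h3 := h.mono Finset.univ {i, j, k} (by simp) (by simp)
  have h4 := c2 {i, j, k} (by simp) (by simp)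
  refine ⟨p * (L {k} - L {i, j, k}) + q * (L {j} - L {i, j, k}) - (L {i} - L {i, j, k}) *
    ((L {j} - L {i, j, k}) * (L {k} - L {i, j, k}) - r), ?_, ?_⟩
  · simp [det_fin_three, h.one] at h1
    push_cast
    linear_combination -h1 - ((L {i, j, k} : ℂ) - L {k}) * hp - ((L {i, j, k} : ℂ) - L {j}) * hq -
      ((L {i, j, k} : ℂ) - L {i}) * c1
  · nlinarith [mul_nonneg (sub_nonneg.2 h2) (sub_nonneg.2 h4), mul_nonneg a2 (sub_nonneg.2 h3),
      mul_nonneg b2 (sub_nonneg.2 h3)]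

end Lv

theorem cubic_re {w : ℂ} {e₁ e₂ e₃ : ℝ} (h : w ^ 3 - e₁ * w ^ 2 + e₂ * w - e₃ = 0)
    (he : e₃ ≤ e₁ * e₂) (hw : w.im ≠ 0) : 0 ≤ w.re := by
  have h1 := congrArg Complex.re h
  have h2 := congrArg Complex.im h
  simp [pow_succ] at h1 h2
  have h3 : e₂ = w.im ^ 2 - 3 * w.re ^ 2 + 2 * e₁ * w.re :=
    mul_left_cancel₀ hw (by linarith)
  have h4 : e₁ * e₂ - e₃ = 2 * w.re * ((e₁ - w.re) ^ 2 + w.im ^ 2) := by
    rw [h3] at h1 ⊢
    linarith
  have h5 : 0 < (e₁ - w.re) ^ 2 + w.im ^ 2 := by positivity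
  by_contra h6
  nlinarith [mul_pos (neg_pos.2 (not_le.1 h6)) h5]

theorem re_four (A : Matrix (Fin 4) (Fin 4) ℂ) (hA : IsOmega A) {z : ℂ} (hz : z ∈ spectrum ℂ A) :
    (lmin A).toReal ≤ z.re := by
  obtain ⟨L, h⟩ := exists_Lv hA
  obtain ⟨x, hx1, hx2, hx3⟩ := top_real hA (by norm_num)
  obtain rfl : x = L Finset.univ := by
    rw [← EReal.coe_eq_coe_iff, ← hx1, ← h.eq _ Finset.univ_nonempty, lmin_princ_univ]
  rw [hx1, EReal.toReal_coe]
  by_cases him : z.im = 0
  · exact hx3 _ (by rwa [show ((z.re : ℝ) : ℂ) = z from Complex.ext rfl (by simp [him])])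
  obtain ⟨p01, a01, -, b01⟩ := h.two (i := 0) (j := 1) (by decide)
  obtain ⟨p02, a02, -, b02⟩ := h.two (i := 0) (j := 2) (by decide)
  obtain ⟨p03, a03, -, b03⟩ := h.two (i := 0) (j := 3) (by decide)
  obtain ⟨p12, a12, -, b12⟩ := h.two (i := 1) (j := 2) (by decide)
  obtain ⟨p13, a13, -, b13⟩ := h.two (i := 1) (j := 3) (by decide)
  obtain ⟨p23, a23, -, b23⟩ := h.two (i := 2) (j := 3) (by decide)
  obtain ⟨T3, c3, d3⟩ := h.three (by decide) (by decide) (by decide) a01 a02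
  obtain ⟨T2, c2, d2⟩ := h.three (by decide) (by decide) (by decide) a01 a03
  obtain ⟨T1, c1, d1⟩ := h.three (by decide) (by decide) (by decide) a02 a03
  obtain ⟨T0, c0, d0⟩ := h.three (by decide) (by decide) (by decide) a12 a13
  have m := fun i => sub_nonneg.2 (h.mono Finset.univ {i} (by simp) (by simp))
  have n01 := sub_nonneg.2 (b01 _ (Finset.mem_univ _) (Finset.mem_univ _))
  have n02 := sub_nonneg.2 (b02 _ (Finset.mem_univ _) (Finset.mem_univ _))
  have n03 := sub_nonneg.2 (b03 _ (Finset.mem_univ _) (Finset.mem_univ _))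
  have n12 := sub_nonneg.2 (b12 _ (Finset.mem_univ _) (Finset.mem_univ _))
  have n13 := sub_nonneg.2 (b13 _ (Finset.mem_univ _) (Finset.mem_univ _))
  have n23 := sub_nonneg.2 (b23 _ (Finset.mem_univ _) (Finset.mem_univ _))
  have m0 := m 0
  have m1 := m 1
  have m2 := m 2
  have m3 := m 3
  rw [mem_spec_iff, det4] at hz hx2
  simp [h.one] at hz hx2
  generalize L Finset.univ = x at *
  obtain ⟨a, ha⟩ : ∃ a, L {0} = a + x := ⟨_, (sub_add_cancel _ _).symm⟩
  obtain ⟨b, hb⟩ : ∃ a, L {1} = a + x := ⟨_, (sub_add_cancel _ _).symm⟩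
  obtain ⟨c, hc⟩ : ∃ a, L {2} = a + x := ⟨_, (sub_add_cancel _ _).symm⟩
  obtain ⟨d, hd⟩ : ∃ a, L {3} = a + x := ⟨_, (sub_add_cancel _ _).symm⟩
  simp only [ha, hb, hc, hd, add_sub_cancel_right, Complex.ofReal_add] at *
  have h0 : z - x ≠ 0 := fun e => him (by simpa using congrArg Complex.im e)
  have := cubic_re (w := z - x) (e₁ := a + b + c + d)
    (e₂ := (a * b - p01) + (a * c - p02) + (a * d - p03) + (b * c - p12) + (b * d - p13) +
      (c * d - p23))
    (e₃ := (a * (b * c - p12) - p01 * c - p02 * b + T3) +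
      (a * (b * d - p13) - p01 * d - p03 * b + T2) +
      (a * (c * d - p23) - p02 * d - p03 * c + T1) + (b * (c * d - p23) - p12 * d - p13 * c + T0))
    (mul_left_cancel₀ h0 ?_) ?_ (by simpa using him)
  · simpa using this
  · push_cast
    linear_combination hz - hx2 + (z - x) * ((z - x - c - d) * a01 + (z - x - b - d) * a02 +
      (z - x - b - c) * a03 + (z - x - a - d) * a12 + (z - x - a - c) * a13 +
      (z - x - a - b) * a23 + c0 + c1 + c2 + c3)
  · nlinarith [mul_nonneg m0 (add_nonneg (add_nonneg n01 n02) n03),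
      mul_nonneg m1 (add_nonneg (add_nonneg (add_nonneg n01 n02) (add_nonneg n03 n12)) n13),
      mul_nonneg (add_nonneg m2 m3) (add_nonneg (add_nonneg (add_nonneg n01 n02)
        (add_nonneg n03 n12)) (add_nonneg n13 n23))]

theorem re_of_ineqV {n : ℕ} {A : Matrix (Fin n) (Fin n) ℂ} (h : IneqV A) {z : ℂ}
    (hz : z ∈ spectrum ℂ A) : (lmin A).toReal ≤ z.re := by
  by_cases e : z = ((lmin A).toReal : ℂ)
  · simp [e]
  · have := Complex.abs_arg_le_pi_div_two_iff.1 ((h z hz e).trans (sub_le_self _ (by positivity)))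
    simpa using this

theorem stable_le_four (n : ℕ) (h1 : 1 ≤ n) (h4 : n ≤ 4) (A : Matrix (Fin n) (Fin n) ℂ)
    (hA : IsTau A) (h0 : A.det ≠ 0) : ∀ z ∈ spectrum ℂ A, 0 < z.re := by
  intro z hz
  obtain ⟨x, hx1, hx2, -⟩ := top_real hA.1 h1
  have h2 : 0 < (lmin A).toReal := by
    have h3 := hA.2
    rw [hx1] at h3 ⊢
    refine lt_of_le_of_ne (by exact_mod_cast h3) fun e => h0 ?_
    rw [EReal.toReal_coe] at e
    rw [← e, mem_spec_iff] at hx2
    simpa [det_neg] using hx2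
  refine h2.trans_le ?_
  interval_cases n
  · exact re_of_ineqV (ineqV_one A hA) hz
  · exact re_of_ineqV (ineqV_two A hA) hz
  · exact re_of_ineqV (ineqV_three A hA) hz
  · exact re_four A hA.1 hz

end Pool.Agent.P.MP_0e199b_al
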