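import Pool.Agent.P.MP_0e199b_al.Stab4

/-! An unstable nonsingular tau-matrix of order five. -/

namespace Pool.Agent.P.MP_0e199b_al

open Matrix

theorem det5 (M : Matrix (Fin 5) (Fin 5) ℂ) (h10 : M 1 0 = 0) (h20 : M 2 0 = 0) (h30 : M 3 0 = 0)
    (h21 : M 2 1 = 0) (h31 : M 3 1 = 0) (h32 : M 3 2 = 0) :
    M.det = M 4 4 * (M 0 0 * M 1 1 * M 2 2 * M 3 3) - M 4 3 * (M 0 0 * M 1 1 * M 2 2 * M 3 4)
      + M 4 2 * (M 0 0 * M 1 1 * (M 2 3 * M 3 4 - M 2 4 * M 3 3))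
      - M 4 1 * (M 0 0 * (M 1 2 * (M 2 3 * M 3 4 - M 2 4 * M 3 3) -
          M 2 2 * (M 1 3 * M 3 4 - M 1 4 * M 3 3)))
      + M 4 0 * (M 0 1 * (M 1 2 * (M 2 3 * M 3 4 - M 2 4 * M 3 3) -
          M 2 2 * (M 1 3 * M 3 4 - M 1 4 * M 3 3)) -
        M 1 1 * (M 0 2 * (M 2 3 * M 3 4 - M 2 4 * M 3 3) -
          M 2 2 * (M 0 3 * M 3 4 - M 0 4 * M 3 3))) := by
  rw [Matrix.det_succ_column_zero]
  simp [Fin.sum_univ_succ, det4, Fin.succAbove, h10, h20, h30, h21, h31, h32]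
  ring

/-- The counterexample of order five. -/
def cex5 : Matrix (Fin 5) (Fin 5) ℂ :=
  !![35, 34, 34, 34, 34; 0, 35, 34, 34, 34; 0, 0, 35, 34, 34; 0, 0, 0, 43, 42;
    4000, 4000, 4000, 4000, 4001]

/-- a factor that is present when `i` is in `α` -/
def fc (α : Finset (Fin 5)) (i : Fin 5) (x : ℝ) : ℝ := if i ∈ α then x else 1

/-- the characteristic polynomial of the triangular part -/
def triP (α : Finset (Fin 5)) (y : ℝ) : ℝ :=
  fc α 0 (y - 35) * fc α 1 (y - 35) * fc α 2 (y - 35) * fc α 3 (y - 43)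

/-- a power of `y - 1` -/
def powP (α : Finset (Fin 5)) (y : ℝ) : ℝ :=
  fc α 0 (y - 1) * fc α 1 (y - 1) * fc α 2 (y - 1) * fc α 3 (y - 1)

theorem cex5_mem (α : Finset (Fin 5)) (y : ℝ) : (y : ℂ) ∈ spectrum ℂ (princ cex5 α) ↔
    (if 4 ∈ α then (y - 1) * triP α y - 4000 * powP α y else triP α y) = 0 := by
  rw [mem_spec_princ, ← Complex.ofReal_eq_zero, det5 _ (by simp [pad, cex5]) (by simp [pad, cex5])
    (by simp [pad, cex5]) (by simp [pad, cex5]) (by simp [pad, cex5]) (by simp [pad, cex5])]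
  refine Eq.congr_left ?_
  by_cases h0 : (0 : Fin 5) ∈ α <;> by_cases h1 : (1 : Fin 5) ∈ α <;>
    by_cases h2 : (2 : Fin 5) ∈ α <;> by_cases h3 : (3 : Fin 5) ∈ α <;>
    by_cases h4 : (4 : Fin 5) ∈ α <;>
    simp [pad, cex5, triP, powP, fc, h0, h1, h2, h3, h4] <;> ring

theorem fc_pos (α : Finset (Fin 5)) (i : Fin 5) {x y : ℝ} (hx : x < 0) (hy : y < 0) :
    0 < fc α i x * fc α i y := by
  unfold fc
  split_ifs
  exacts [mul_pos_of_neg_of_neg hx hy, by norm_num]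

theorem fc_zero {α β : Finset (Fin 5)} (h : β ⊆ α) {i : Fin 5} {x : ℝ} (e : fc β i x = 0) :
    fc α i x = 0 := by
  unfold fc at e ⊢
  split_ifs at e with k
  · rwa [if_pos (h k)]
  · exact absurd e one_ne_zero

theorem cex5_ge (α : Finset (Fin 5)) : ((1 : ℝ) : EReal) ≤ lmin (princ cex5 α) := by
  refine le_sInf ?_
  rintro _ ⟨y, rfl, hy⟩
  rw [EReal.coe_le_coe_iff]
  by_contra h
  have h1 : y - 1 < 0 := sub_neg.2 (not_le.1 h)
  have h2 : 0 < triP α y * powP α y := by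
    have := mul_pos (mul_pos (fc_pos α 0 (x := y - 35) (by linarith) h1)
      (fc_pos α 1 (x := y - 35) (by linarith) h1)) (mul_pos
      (fc_pos α 2 (x := y - 35) (by linarith) h1) (fc_pos α 3 (x := y - 43) (by linarith) h1))
    unfold triP powP
    linarith
  rw [cex5_mem] at hy
  split_ifs at hy
  · have h3 := mul_neg_of_neg_of_pos h1 h2
    rw [← mul_assoc, sub_eq_zero.1 hy] at h3
    nlinarith [mul_self_nonneg (powP α y)]
  · simp [hy] at h2

theorem cex5_one {α : Finset (Fin 5)} (h4 : 4 ∈ α) {i : Fin 5} (hi : i ∈ α) (h : i ≠ 4) :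
    lmin (princ cex5 α) ≤ ((1 : ℝ) : EReal) := by
  refine lmin_le _ _ ((cex5_mem α 1).2 ?_)
  fin_cases i <;> simp_all [powP, fc]

theorem cex5_lt (β : Finset (Fin 5)) (hβ : β.Nonempty) : lmin (princ cex5 β) < ⊤ := by
  by_cases h : ∃ i ∈ β, i ≠ 4
  · obtain ⟨i, hi, h⟩ := h
    by_cases h4 : 4 ∈ β
    · exact (cex5_one h4 hi h).trans_lt (EReal.coe_lt_top _)
    · refine (lmin_le _ (if i = 3 then 43 else 35) ((cex5_mem β _).2 ?_)).trans_lt
        (EReal.coe_lt_top _)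
      fin_cases i <;> simp_all [triP, fc]
  · obtain rfl : β = {4} := Finset.eq_singleton_iff_nonempty_unique_mem.2
      ⟨hβ, fun i hi => not_not.1 fun e => h ⟨i, hi, e⟩⟩
    refine (lmin_le _ 4001 ((cex5_mem _ _).2 ?_)).trans_lt (EReal.coe_lt_top _)
    simp [triP, powP, fc]
    norm_num

theorem cex5_isTau : IsTau cex5 := by
  refine ⟨fun α β hβ hsub => ⟨?_, cex5_lt β hβ⟩, ?_⟩
  · by_cases h4 : 4 ∈ α
    · by_cases h : ∃ i ∈ α, i ≠ 4
      · obtain ⟨i, hi, h⟩ := h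
        exact (cex5_one h4 hi h).trans (cex5_ge β)
      · obtain rfl : β = α := hsub.antisymm fun i hi => by
          obtain ⟨j, hj⟩ := hβ
          rwa [not_not.1 fun e => h ⟨i, hi, e⟩, ← not_not.1 fun e => h ⟨j, hsub hj, e⟩]
        exact le_rfl
    · refine sInf_le_sInf ?_
      rintro _ ⟨y, rfl, hy⟩
      refine ⟨y, rfl, ?_⟩
      rw [cex5_mem, if_neg fun e => h4 (hsub e)] at hy
      rw [cex5_mem, if_neg h4]
      simp only [triP, mul_eq_zero] at hy ⊢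
      exact hy.imp (Or.imp (Or.imp (fc_zero hsub) (fc_zero hsub)) (fc_zero hsub)) (fc_zero hsub)
  · rw [← lmin_princ_univ]
    exact le_trans (by exact_mod_cast zero_le_one) (cex5_ge _)

theorem cex5_det : cex5.det ≠ 0 := by
  rw [det5 _ rfl rfl rfl rfl rfl rfl]
  simp [cex5]
  norm_num

theorem cex5_spec : (-1 + 8 * Complex.I) ∈ spectrum ℂ cex5 := by
  rw [mem_spec_iff, det5 _ (by simp [cex5]) (by simp [cex5]) (by simp [cex5]) (by simp [cex5])
    (by simp [cex5]) (by simp [cex5])]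
  simp [cex5, Complex.ext_iff]
  norm_num

theorem stable_main :
    IsGreatest {N : ℕ | ∀ n : ℕ, 1 ≤ n → n ≤ N → ∀ A : Matrix (Fin n) (Fin n) ℂ,
      IsTau A → A.det ≠ 0 → ∀ z ∈ spectrum ℂ A, 0 < z.re} 4 := by
  refine ⟨stable_le_four, fun N hN => ?_⟩
  by_contra h
  have := hN 5 (by norm_num) (by omega) cex5 cex5_isTau cex5_det _ cex5_spec
  norm_num at this

end Pool.Agent.P.MP_0e199b_al
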